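import Mathlib
import Pool.Agent.V11216.UltraBalls

/-!
# MP_856f66_gt : isometry of completions versus isometry of positive-radius ball spaces
-/

namespace Pool.Agent.Results.MP_856f66_gt.CompletionIff

open Pool.Agent.V11216.UltraBalls

/-- For all ultrametric spaces `X`, `Y` the completions are isometric if and only if the spaces
of positive-radius closed balls (with the Hausdorff distance) are isometric. -/
theorem result (X Y : Type*) [MetricSpace X] [IsUltrametricDist X] [MetricSpace Y]
    [IsUltrametricDist Y] :
    Nonempty (UniformSpace.Completion X ≃ᵢ UniformSpace.Completion Y) ↔ BallIsometric X Y :=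
  main X Y

end Pool.Agent.Results.MP_856f66_gt.CompletionIff
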